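import Pool.Agent.H72.RN.STK

/-! Module STB of project RN: Stepanov's bound for the number of points. -/

set_option autoImplicit false
set_option linter.unusedSectionVars false
set_option linter.unusedVariables false

namespace Pool.RN

open Polynomial

theorem s_STB {F k : Type} [Field F] [Fintype F] [Field k] [Algebra F k] [IsAlgClosed k]
    [Algebra.IsAlgebraic F k] (M : F[X]) (Y : (EE k)[X]) (hM : M.Monic) (hm : 1 ≤ M.natDegree) (hY : Good M Y)
    (hSTK : S_STK M Y) (hSTV : S_STV M Y) (hZER : S_ZER M Y) (hNMI : S_NMI F k) (hMLT : S_MLT F k) (hSWT : S_SWT F k) : S_STB M Y := by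
  intro s m' n' w hw hs hfin hlt
  obtain ⟨p, a, hp, hchar, hq⟩ := STK_char (F := F) (k := k)
  have : Fact p.Prime := ⟨hp⟩
  have hBp : Fintype.card F ^ s = p ^ (a * s) := by rw [hq, ← pow_mul]
  obtain ⟨c, hc⟩ := AdjoinRoot.mk_surjective w
  obtain ⟨n, U, V, hU, hV, hrel, hne⟩ := hSTK s m' n' c hs hfin hlt
  have hΘ : (∑ i, U i * V i ^ (Fintype.card F ^ s)) ∈
      WW F k M.natDegree (m' + Fintype.card F ^ s * n') := by
    refine Submodule.sum_mem _ fun i _ => ?_
    exact hMLT _ _ _ _ _ (hU i) (STK_pow hMLT _ _ _ (hV i) _)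
  unfold NN
  refine hZER _ _ hΘ hne _ fun x1 hx1 => ?_
  obtain ⟨hx1F, hx1u⟩ := Finset.mem_filter.1 hx1
  have h2s : 1 ≤ 2 * s := by omega
  have hM1 : aeval x1 M ≠ 0 := by
    intro h0
    obtain ⟨y, hy⟩ := hw.exists_right_inv
    obtain ⟨g, hg⟩ := AdjoinRoot.mk_surjective y
    rw [← hx1u, ← hg, ← map_mul, ← map_one (AdjoinRoot.mk M), AdjoinRoot.mk_eq_mk] at hy
    obtain ⟨t, ht⟩ := hy
    have h1 := congrArg (aeval x1) ht
    rw [map_sub, map_mul, map_mul, map_one, h0, zero_mul] at h1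
    have h2 : aeval x1 (nm F x1 (2 * s)) = 0 := by
      have h3 := (hNMI (2 * s) h2s x1 hx1F).2
      have h4 : aeval x1 (nm F x1 (2 * s)) =
          ((nm F x1 (2 * s)).map (algebraMap F k)).eval x1 := by
        rw [eval_map, aeval_def]
      rw [h4, h3]
      unfold Nrm
      rw [eval_prod]
      refine Finset.prod_eq_zero (Finset.mem_range.2 (by omega : 0 < 2 * s)) ?_
      simp
    rw [h2, zero_mul] at h1
    simp at h1
  refine ⟨hM1, fun Y1 hY1 => ?_⟩
  have hdvd : M ∣ nm F x1 (2 * s) - c := by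
    rw [← AdjoinRoot.mk_eq_mk, hx1u, hc]
  have hST := hSTV (2 * s) h2s c x1 Y1 hx1F hM1 hY1 hdvd
  have hpt := hY1.2 _ hrel
  have hpow : (ev M.natDegree x1 Y1 (∑ i, U i * V i ^ (Fintype.card F ^ s))) ^
      (Fintype.card F ^ s) = 0 := by
    rw [← hpt, map_sum, map_sum]
    conv_lhs => rw [hBp]
    rw [sum_pow_char_pow]
    refine Finset.sum_congr rfl fun i _ => ?_
    rw [← hBp, map_mul, mul_pow, map_mul, map_pow, map_pow, ← pow_mul, ← pow_add, ← two_mul, hST]
  exact pow_eq_zero_iff (by rw [hBp]; exact (pow_pos hp.pos _).ne') |>.1 hpow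

end Pool.RN
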