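import Pool.Agent.H48.RN.Stmts2

/-! Module STK of project RN: the auxiliary function of Stepanov's method. -/

set_option autoImplicit false
set_option linter.unusedSectionVars false
set_option linter.unusedVariables false

namespace Pool.RN

open Polynomial

section STKsec

variable {F k : Type} [Field F] [Fintype F] [Field k] [Algebra F k]

theorem STK_char : ∃ (p a : ℕ), p.Prime ∧ CharP k p ∧ Fintype.card F = p ^ a := by
  obtain ⟨p, hp⟩ := CharP.exists F
  obtain ⟨n, hprime, hn⟩ := FiniteField.card F p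
  exact ⟨p, n, hprime, charP_of_injective_algebraMap (algebraMap F k).injective p, hn⟩

theorem STK_pow (hMLT : S_MLT F k) (m d : ℕ) (P : PP k m) (hP : P ∈ WW F k m d) (B : ℕ) :
    P ^ B ∈ WW F k m (B * d) := by
  induction B with
  | zero =>
    intro t ht
    rw [pow_zero] at ht
    have h0 : t = 0 := by
      by_contra hne
      rw [MvPolynomial.mem_support_iff, MvPolynomial.coeff_one, if_neg (Ne.symm hne)] at ht
      exact ht rfl
    subst h0
    simp [wt]
  | succ B ih =>
    rw [pow_succ, Nat.succ_mul]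
    exact hMLT _ _ _ _ _ ih hP

theorem STK_map (m d : ℕ) (P : PP k m) (hP : P ∈ WW F k m d) (f : k →+* k) :
    MvPolynomial.map f P ∈ WW F k m d := fun t ht =>
  hP t (MvPolynomial.support_map_subset _ _ ht)

end STKsec

theorem s_STK {F k : Type} [Field F] [Fintype F] [Field k] [Algebra F k] [IsAlgClosed k]
    [Algebra.IsAlgebraic F k] (M : F[X]) (Y : (EE k)[X]) (hM : M.Monic) (hm : 1 ≤ M.natDegree) (hY : Good M Y)
    (hLAU : S_LAU (k := k)) (hSEM : S_SEM (k := k)) (hORD : S_ORD M Y) (hDUP : S_DUP M Y) (hMLT : S_MLT F k) (hSWT : S_SWT F k) (hEVA : S_EVA F k) : S_STK M Y := by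
  intro s m' n' c _ hfin hlt
  obtain ⟨p, a, hp, hchar, hq⟩ := STK_char (F := F) (k := k)
  have : Fact p.Prime := ⟨hp⟩
  have hcharE : CharP (EE k) p := charP_of_injective_algebraMap (algebraMap k (EE k)).injective p
  set B : ℕ := Fintype.card F ^ s with hB
  have hBp : B = p ^ (a * s) := by rw [hB, hq, ← pow_mul]
  set N : ℕ := Module.finrank k (RR F M.natDegree Y n') with hN
  have f1 : Module.Finite k (RR F M.natDegree Y n') := (hDUP n').1
  have f2 : Module.Finite k (RR F M.natDegree Y m') := (hDUP m').1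
  have f3 : Module.Finite k (RR F M.natDegree Y (B * m' + n')) := (hDUP _).1
  let β : Module.Basis (Fin N) k (RR F M.natDegree Y n') := Module.finBasis k (RR F M.natDegree Y n')
  have hlift : ∀ (d : ℕ) (x : EE k), x ∈ RR F M.natDegree Y d → ∃ P ∈ WW F k M.natDegree d,
      ev (k := k) M.natDegree (xx F k) Y P = x := by
    intro d x hx
    obtain ⟨P, hP, h⟩ := Submodule.mem_map.1 hx
    exact ⟨P, hP, h⟩
  have hv : ∀ i, ∃ P ∈ WW F k M.natDegree n', ev (k := k) M.natDegree (xx F k) Y P = (β i : EE k) := fun i =>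
    hlift n' _ (β i).2
  choose v hvW hvE using hv
  -- the functions with which we multiply
  set g : Fin N → EE k := fun i =>
    ev (k := k) M.natDegree (xx F k) Y (sub k M c (MvPolynomial.map (frr F k (2 * s)) (v i))) with hg
  have hgW : ∀ i, sub k M c (MvPolynomial.map (frr F k (2 * s)) (v i)) ∈ WW F k M.natDegree n' := fun i =>
    hSWT M c n' _ (STK_map M.natDegree n' _ (hvW i) _)
  have hmem : ∀ (w : Fin N → RR F M.natDegree Y m'), ∑ i, (w i : EE k) ^ B * g i ∈
      RR F M.natDegree Y (B * m' + n') := by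
    intro w
    refine Submodule.sum_mem _ fun i _ => ?_
    obtain ⟨P, hP, hPe⟩ := hlift m' _ (w i).2
    refine Submodule.mem_map.2 ⟨P ^ B * sub k M c (MvPolynomial.map (frr F k (2 * s)) (v i)),
      hMLT _ _ _ _ _ (STK_pow hMLT M.natDegree m' P hP B) (hgW i), ?_⟩
    rw [AlgHom.toLinearMap_apply, map_mul, map_pow, hPe]
  let Φ : (Fin N → RR F M.natDegree Y m') →+ RR F M.natDegree Y (B * m' + n') :=
    { toFun := fun w => ⟨∑ i, (w i : EE k) ^ B * g i, hmem w⟩
      map_zero' := by
        apply Subtype.ext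
        have hB0 : B ≠ 0 := by
          rw [hBp]
          exact (pow_pos hp.pos _).ne'
        simp [zero_pow hB0]
      map_add' := by
        intro w w'
        apply Subtype.ext
        simp only [Pi.add_apply, Submodule.coe_add]
        rw [← Finset.sum_add_distrib]
        refine Finset.sum_congr rfl fun i _ => ?_
        rw [hBp, add_pow_char_pow, add_mul] }
  have hΦs : ∀ (x : k) (w : Fin N → RR F M.natDegree Y m'), Φ (x • w) = x ^ (p ^ (a * s)) • Φ w := by
    intro x w
    apply Subtype.ext
    change ∑ i, ((x • w) i : EE k) ^ B * g i = x ^ (p ^ (a * s)) • ∑ i, (w i : EE k) ^ B * g i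
    rw [Finset.smul_sum]
    refine Finset.sum_congr rfl fun i _ => ?_
    have e : (((x • w) i : RR F M.natDegree Y m') : EE k) = x • (w i : EE k) := rfl
    rw [e, _root_.smul_pow, smul_mul_assoc, hBp]
  have hrank : Module.finrank k (RR F M.natDegree Y (B * m' + n')) <
      Module.finrank k (Fin N → RR F M.natDegree Y m') := by
    rw [Module.finrank_pi_fintype]
    simp only [Finset.sum_const, Finset.card_univ, Fintype.card_fin, smul_eq_mul]
    rw [Nat.mul_comm N]
    exact hfin
  obtain ⟨w, hw0, hΦ0⟩ := hSEM p (a * s) (Fin N → RR F M.natDegree Y m') (RR F M.natDegree Y (B * m' + n')) Φ hΦs hrank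
  have hrel : ∑ i, (w i : EE k) ^ B * g i = 0 := congrArg Subtype.val hΦ0
  -- nonvanishing
  have hind : LinearIndependent k (fun i => (β i : EE k)) := by
    have := β.linearIndependent.map' (RR F M.natDegree Y n').subtype (Submodule.ker_subtype _)
    exact this
  have hne : ∑ i, (w i : EE k) * (β i : EE k) ^ B ≠ 0 := by
    intro h0
    have hLa := hLAU p (a * s) (RR F M.natDegree Y m') (-(m' : ℤ)) f2 (by
      intro u hu hu0
      obtain ⟨h1, h2⟩ := hORD m' u hu hu0
      refine ⟨h1, ?_⟩
      rw [← hBp]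
      have h3 : (((HH M Y).card + 1) * m' : ℕ) < (B : ℤ) := by exact_mod_cast hlt
      push_cast at h2 h3 ⊢
      linarith) N (fun i => (β i : EE k)) hind (fun i => (w i : EE k)) (fun i => (w i).2)
      (by rw [← hBp]; exact h0)
    apply hw0
    funext i
    exact Subtype.ext (hLa i)
  have hu : ∀ i, ∃ P ∈ WW F k M.natDegree m', ev (k := k) M.natDegree (xx F k) Y P = (w i : EE k) := fun i =>
    hlift m' _ (w i).2
  choose u huW huE using hu
  refine ⟨N, u, v, huW, hvW, ?_, ?_⟩
  · rw [map_sum, ← hrel]
    refine Finset.sum_congr rfl fun i _ => ?_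
    rw [map_mul, map_pow, huE i]
  · have e : ev (k := k) M.natDegree (xx F k) Y (∑ i, u i * v i ^ B) =
        ∑ i, (w i : EE k) * (β i : EE k) ^ B := by
      rw [map_sum]
      refine Finset.sum_congr rfl fun i _ => ?_
      rw [map_mul, map_pow, huE i, hvE i]
    rw [e]
    exact hne

end Pool.RN
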