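import Pool.Agent.H48.RN.Stmts2

/-! Module LAU of project RN: the Laurent lemma. -/

set_option autoImplicit false

namespace Pool.RN

open Polynomial

section LAUsec

variable {k : Type} [Field k]

theorem LAU_cf_zero (n : ℤ) : cf (0 : EE k) n = 0 :=
  HahnSeries.coeff_zero (Γ := ℤ) (R := k)

theorem LAU_od_add {x y : EE k} (hx : x ≠ 0) (h : od x < od y) :
    x + y ≠ 0 ∧ od (x + y) = od x := by
  have h1 : cf (x + y) (od x) ≠ 0 := by
    rw [cf_add, cf_lt h, add_zero]
    exact cf_od hx
  have h0 : x + y ≠ 0 := by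
    intro h'
    rw [h', LAU_cf_zero] at h1
    exact h1 rfl
  refine ⟨h0, le_antisymm ?_ ?_⟩
  · by_contra hlt
    exact h1 (cf_lt (not_le.1 hlt))
  · exact le_od h0 fun i hi => by rw [cf_add, cf_lt hi, cf_lt (hi.trans h), add_zero]

theorem LAU_od_pow {y : EE k} (hy : y ≠ 0) (n : ℕ) : od (y ^ n) = n * od y := by
  induction n with
  | zero =>
    have := od_algebraMap (1 : k)
    rw [map_one] at this
    simpa using this
  | succ n ih =>
    rw [pow_succ, od_mul (pow_ne_zero n hy) hy, ih]
    push_cast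
    ring

/-- The coefficient as a linear map. -/
noncomputable def LAU_cfl (n : ℤ) : EE k →ₗ[k] k where
  toFun x := cf x n
  map_add' x y := cf_add x y n
  map_smul' c x := by rw [cf_smul]; rfl

theorem LAU_od_sum_ne {b y T : EE k} (Q : ℕ) (hb : b ≠ 0) (hy : y ≠ 0)
    {w : EE k} (hw : (Q : ℤ) ∣ od T - od w) (hlt : od b < od w) (hltQ : od w < od b + Q) :
    od (b * y ^ Q) ≠ od T := by
  intro h
  rw [od_mul hb (pow_ne_zero _ hy), LAU_od_pow hy] at h
  rw [← h] at hw
  have h2 : (Q : ℤ) ∣ od b - od w := by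
    have e : od b + Q * od y - od w = (od b - od w) + Q * od y := by ring
    rw [e] at hw
    exact (dvd_add_left (dvd_mul_right _ _)).1 hw
  obtain ⟨c, hc⟩ := h2
  have h3 : (Q : ℤ) * c < 0 := by rw [← hc]; linarith
  have h4 : -(Q : ℤ) < Q * c := by rw [← hc]; linarith
  have hQ : (0 : ℤ) ≤ Q := Int.natCast_nonneg Q
  have h5 : c < 0 := by
    by_contra hc0
    have := mul_nonneg hQ (not_lt.1 hc0)
    linarith
  nlinarith

theorem LAU_main [IsAlgClosed k] (p s : ℕ) [Fact p.Prime] [CharP k p] : ∀ (L : ℕ), L ≤ p ^ s →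
    ∀ (a : ℤ) (U : Submodule k (EE k)), (∀ u ∈ U, u ≠ 0 → a ≤ od u ∧ od u < a + L) →
    ∀ (n : ℕ) (v u : Fin n → EE k), (∀ i, u i ∈ U) →
      (∑ i, u i * v i ^ (p ^ s) ≠ 0 → ∃ w ∈ U, w ≠ 0 ∧
        ((p ^ s : ℕ) : ℤ) ∣ od (∑ i, u i * v i ^ (p ^ s)) - od w) ∧
      (LinearIndependent k v → ∑ i, u i * v i ^ (p ^ s) = 0 → ∀ i, u i = 0) := by
  have hchar : CharP (EE k) p := charP_of_injective_algebraMap (algebraMap k (EE k)).injective p
  have hQ0 : 0 < p ^ s := pow_pos (Fact.out : p.Prime).pos s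
  intro L
  induction L with
  | zero =>
    intro hL a U hU n v u hu
    have h0 : ∀ i, u i = 0 := by
      intro i
      by_contra hne
      have := hU _ (hu i) hne
      simp at this
      omega
    refine ⟨fun h => absurd ?_ h, fun _ _ => h0⟩
    exact Finset.sum_eq_zero fun i _ => by rw [h0 i, zero_mul]
  | succ L ih =>
    intro hL a U hU n v u hu
    -- the smaller space
    set U' : Submodule k (EE k) := U ⊓ LinearMap.ker (LAU_cfl (k := k) a) with hU'
    have hmem : ∀ x, x ∈ U' ↔ x ∈ U ∧ cf x a = 0 := by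
      intro x
      rw [hU', Submodule.mem_inf, LinearMap.mem_ker]
      rfl
    have hord : ∀ x ∈ U', x ≠ 0 → a + 1 ≤ od x ∧ od x < a + 1 + L := by
      intro x hx hx0
      obtain ⟨h1, h2⟩ := (hmem x).1 hx
      obtain ⟨h3, h4⟩ := hU x h1 hx0
      have h5 : od x ≠ a := by
        intro h
        rw [← h] at h2
        exact cf_od hx0 h2
      push_cast at h4
      omega
    by_cases hall : ∀ i, cf (u i) a = 0
    · obtain ⟨h1, h2⟩ := ih (by omega) (a + 1) U' hord n v u fun i => (hmem _).2 ⟨hu i, hall i⟩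
      refine ⟨fun h => ?_, h2⟩
      obtain ⟨w, hw, hw0, hd⟩ := h1 h
      exact ⟨w, ((hmem w).1 hw).1, hw0, hd⟩
    · push Not at hall
      obtain ⟨i₀, hi₀⟩ := hall
      set b : EE k := (cf (u i₀) a)⁻¹ • u i₀ with hb
      have hbU : b ∈ U := U.smul_mem _ (hu i₀)
      have hcb : cf b a = 1 := by rw [hb, cf_smul, inv_mul_cancel₀ hi₀]
      have hb0 : b ≠ 0 := by
        intro h
        rw [h, LAU_cf_zero] at hcb
        exact zero_ne_one hcb
      have hob : od b = a := by
        apply le_antisymm _ (hU b hbU hb0).1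
        by_contra hlt
        rw [cf_lt (not_le.1 hlt)] at hcb
        exact zero_ne_one hcb
      have hroot : ∀ i, ∃ d : k, d ^ (p ^ s) = cf (u i) a := fun i =>
        IsAlgClosed.exists_pow_nat_eq _ hQ0
      choose d hd using hroot
      set y : EE k := ∑ i, d i • v i with hy
      set u' : Fin n → EE k := fun i => u i - cf (u i) a • b with hu'
      have hu'U : ∀ i, u' i ∈ U' := by
        intro i
        refine (hmem _).2 ⟨U.sub_mem (hu i) (U.smul_mem _ hbU), ?_⟩
        simp only [hu']
        rw [cf_sub, cf_smul, hcb, mul_one, sub_self]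
      have hyQ : y ^ (p ^ s) = ∑ i, cf (u i) a • v i ^ (p ^ s) := by
        rw [hy, sum_pow_char_pow]
        refine Finset.sum_congr rfl fun i _ => ?_
        rw [_root_.smul_pow, hd i]
      have hsum : ∑ i, u i * v i ^ (p ^ s) = b * y ^ (p ^ s) + ∑ i, u' i * v i ^ (p ^ s) := by
        rw [hyQ, Finset.mul_sum, ← Finset.sum_add_distrib]
        refine Finset.sum_congr rfl fun i _ => ?_
        simp only [hu', Algebra.smul_def]
        ring
      obtain ⟨h1, h2⟩ := ih (by omega) (a + 1) U' hord n v u' hu'U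
      have hneq : y ≠ 0 → ∑ i, u' i * v i ^ (p ^ s) ≠ 0 →
          od (b * y ^ (p ^ s)) ≠ od (∑ i, u' i * v i ^ (p ^ s)) := by
        intro hy0 hT
        obtain ⟨w, hw, hw0, hdw⟩ := h1 hT
        obtain ⟨h3, h4⟩ := hord w hw hw0
        refine LAU_od_sum_ne (p ^ s) hb0 hy0 hdw (by rw [hob]; omega) ?_
        rw [hob]
        have : ((L + 1 : ℕ) : ℤ) ≤ ((p ^ s : ℕ) : ℤ) := by exact_mod_cast hL
        push_cast at this ⊢
        linarith
      constructor
      · intro hne
        by_cases hy0 : y = 0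
        · rw [hsum, hy0, zero_pow hQ0.ne', mul_zero, zero_add] at hne ⊢
          obtain ⟨w, hw, hw0, hdw⟩ := h1 hne
          exact ⟨w, ((hmem w).1 hw).1, hw0, hdw⟩
        · by_cases hT : ∑ i, u' i * v i ^ (p ^ s) = 0
          · refine ⟨b, hbU, hb0, ?_⟩
            rw [hsum, hT, add_zero, od_mul hb0 (pow_ne_zero _ hy0), LAU_od_pow hy0]
            exact ⟨od y, by ring⟩
          · have hne2 := hneq hy0 hT
            rw [hsum]
            rcases lt_or_gt_of_ne hne2 with h | h
            · rw [(LAU_od_add (mul_ne_zero hb0 (pow_ne_zero _ hy0)) h).2]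
              refine ⟨b, hbU, hb0, ?_⟩
              rw [od_mul hb0 (pow_ne_zero _ hy0), LAU_od_pow hy0]
              exact ⟨od y, by ring⟩
            · rw [add_comm, (LAU_od_add hT h).2]
              obtain ⟨w, hw, hw0, hdw⟩ := h1 hT
              exact ⟨w, ((hmem w).1 hw).1, hw0, hdw⟩
      · intro hv h0
        rw [hsum] at h0
        have hy0 : y = 0 := by
          by_contra hy0
          have hT : ∑ i, u' i * v i ^ (p ^ s) ≠ 0 := by
            intro hT
            rw [hT, add_zero] at h0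
            exact mul_ne_zero hb0 (pow_ne_zero _ hy0) h0
          have hne2 := hneq hy0 hT
          rcases lt_or_gt_of_ne hne2 with h | h
          · exact (LAU_od_add (mul_ne_zero hb0 (pow_ne_zero _ hy0)) h).1 h0
          · rw [add_comm] at h0
            exact (LAU_od_add hT h).1 h0
        have hdz : ∀ i, d i = 0 := by
          have := Fintype.linearIndependent_iff.1 hv d
          exact this (by rw [← hy]; exact hy0)
        have hc0 : ∀ i, cf (u i) a = 0 := fun i => by rw [← hd i, hdz i, zero_pow hQ0.ne']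
        exact absurd (hc0 i₀) hi₀

end LAUsec

theorem s_LAU (k : Type) [Field k] [IsAlgClosed k] : S_LAU (k := k) := by
  intro p s _ _ U a _ hU n v hv u hu h0
  exact (LAU_main p s (p ^ s) le_rfl a U hU n v u hu).2 hv h0

end Pool.RN
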